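import Mathlib
import Pool.Agent.Helper923.PPS.CutF
import Pool.Agent.Helper923.PPS.UnbN

set_option autoImplicit false

open Filter MeasureTheory

namespace Pool.Agent.Results.MP_98b61d_nt.Main

/-- `f n`: the sum over the primes dividing `n` of the largest power not exceeding `n` -/
def f (n : ℕ) : ℕ := ∑ p ∈ n.primeFactors, p ^ Nat.log p n

/-- admissible sets for `n`: contained in `{2,...,n}`, pairwise coprime, every prime factor of
every element divides `n` -/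
def Admissible (n : ℕ) (A : Finset ℕ) : Prop :=
  (∀ a ∈ A, 2 ≤ a ∧ a ≤ n) ∧ (∀ a ∈ A, ∀ b ∈ A, a ≠ b → Nat.Coprime a b) ∧
    ∀ a ∈ A, ∀ p : ℕ, p.Prime → p ∣ a → p ∣ n

open scoped Classical in
/-- `F n`: the maximal sum of an admissible set -/
noncomputable def F (n : ℕ) : ℕ :=
  ((Finset.Icc 2 n).powerset.filter (fun A => Admissible n A)).sup (fun A => ∑ a ∈ A, a)

open scoped Classical in
/-- `N x`: the number of `1 ≤ n < x` with `f n = F n` -/
noncomputable def N (x : ℝ) : ℕ :=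
  ((Finset.Icc 1 ⌊x⌋₊).filter (fun n : ℕ => (n : ℝ) < x ∧ f n = F n)).card

/-- the largest power of `p` not exceeding the real number `t` -/
noncomputable def pw (p : ℕ) (t : ℝ) : ℕ := p ^ Nat.log p ⌊t⌋₊

/-- the explicit set of real numbers attached to the cofactor `m` -/
def I (m : ℕ) : Set ℝ :=
  {t : ℝ | 1 ≤ t ∧ ∀ e : ℕ, 2 ≤ e → e.primeFactors ⊆ m.primeFactors →
    ((e : ℝ) ≤ t → (e : ℝ) ≤ ∑ p ∈ e.primeFactors, (pw p t : ℝ)) ∧
    (e ≤ m → t * ((e : ℝ) - 1) ≤ m * ∑ p ∈ e.primeFactors, (pw p t : ℝ))}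

/-- the explicit main term with cofactors up to `y` -/
noncomputable def g (y x : ℝ) : ℝ :=
  1 / Real.log x * ∑ m ∈ Finset.Icc 1 ⌊y⌋₊, (volume (I m ∩ Set.Icc 1 x)).toReal / m

theorem result :
    -- the asymptotic formula, with any cutoff `Y x` between `exp ((log log x)^4)` and `x`
    (∀ Y : ℝ → ℝ,
      (∀ᶠ x : ℝ in atTop, Real.exp ((Real.log (Real.log x)) ^ 4) ≤ Y x ∧ Y x ≤ x) →
      Tendsto (fun x : ℝ => (N x : ℝ) / g (Y x) x) atTop (nhds 1)) ∧
    -- in particular with all cofactors `m ≤ x`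
    Tendsto (fun x : ℝ => (N x : ℝ) / g x x) atTop (nhds 1) ∧
    -- upper bound
    (∃ C : ℝ, ∀ᶠ x : ℝ in atTop,
      (N x : ℝ) ≤ C * (x * Real.log (Real.log x) / Real.log x)) ∧
    -- the known lower bound is not the true order
    (∀ C x0 : ℝ, ∃ x : ℝ, x0 ≤ x ∧ C * (x / Real.log x) ≤ N x) :=
  ⟨fun Y hY => Pool.Agent.Helper923.PPS.asymptotic_cut Y hY,
    Pool.Agent.Helper923.PPS.asymptotic_cut (fun x => x)
      (Pool.Agent.Helper923.PPS.GLL_le.mono fun _ hx => ⟨hx, le_rfl⟩),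
    Pool.Agent.Helper923.PPS.N_upper,
    Pool.Agent.Helper923.PPS.N_unbounded⟩

end Pool.Agent.Results.MP_98b61d_nt.Main
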